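import Mathlib

set_option autoImplicit false

namespace Pool.Agent.Results.MP_89dd65_gt.Nine

open Finset Equiv

/-- The orientation cocycle: the sign of the oriented area of the triangle `a, b, c`. -/
noncomputable def ori (a b c : ℂ) : ℝ := SignType.sign (((starRingEnd ℂ) (b - a) * (c - a)).im)

/-- The cochain `Θ_n`; `θ j i` is the `i`-th coordinate of the `j`-th point. -/
noncomputable def Theta (n : ℕ) (θ : Fin (2 * n + 1) → Fin n → ℂ) : ℝ :=
  Real.pi ^ n / (2 * n + 1).factorial * ∑ σ : Perm (Fin (2 * n + 1)),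
    ((Perm.sign σ : ℤ) : ℝ) * ∏ i : Fin n, ori (θ (σ ⟨2 * i, by omega⟩) i)
      (θ (σ ⟨2 * i + 1, by omega⟩) i) (θ (σ ⟨2 * i + 2, by omega⟩) i)

/-- The configuration `θ*`: the `k`-th coordinate of the `j`-th point is `ζ^{kj}`, `k = i + 1`. -/
noncomputable def thetaStar (n : ℕ) (j : Fin (2 * n + 1)) (i : Fin n) : ℂ :=
  Complex.exp (2 * Real.pi * Complex.I / (2 * n + 1)) ^ ((i + 1) * j : ℕ)

def T0 : ℕ := 2658350979237871450340424293266035133869418308325515195614753403106191706504199462167014706014240088462757591650409058430132931014534220495522951877511543123328769200582751603515509692448787231406632224348573641405160550497511789799574103929901320849752506368489195741567743356913062855757061136345848817776560708340792124825270613746156369484824116269465209992506911830854439779465938783707327909128572271715204553979227548249115571082581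
def T1 : ℕ := 2658350994092639494015020963211012496804073066218358207497218095476444447175054126560056051335172470615605279590890976728696408562977697980040360494681867235903897473375866723012803450820863179384550615327633374318640976573313199312748199554237409013276506905700978407941323366362131210448205660216942177620565499938157560074379523024407838862124652768391127813144383688354986083816086192985522437890860392189499940745809122744277119882581
def T2 : ℕ := 2658351130106609357018471947134594260766269444270234396786625000734906319201202694246364650397186307809107854640197704974208568720291509697890742623244767290323349320697750600443116802264956396867959911679281485815157365201600026398570098091434944696019747444369137407176334569807911663937896408166306452439656493065577201238686920448377217766189601527500367693925955876977081363665050997346086577003746176591219163590485986977181578122581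
def T3 : ℕ := 2658351232697351121754361882238693967826051063584102814475148323117455388062155870333406047598403727101226006469340522173455053302554007359928254077170189054034097502927827569470461236411015983414142612000694588163580891207067564488935490423148221133029112953684376713283218807886168398615706594526793161435391766313392754251712331642402110739693425364506339976515098704491058048852292284269046106602935488722750054403347124643245306762581
def T4 : ℕ := 2658351220627852086269596480690586259843125504820567605904363820049235454698092021784249825321889597603179870501355256158847041565169154098266320107886226655046299981566394757654807189861723653012910646877824582268697139793315059422456537847853257778132514763853728376647348979746547465666109423194264072531892007763898745471133966318417596872252376037963306018778446845087066345360988483714077360745955223522779696592842179885267399562581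

def sel (n : ℕ) (x : ℤ) : ℤ :=
  match n with
  | 0 => -x
  | 1 => 0
  | _ + 2 => x

def pickSum (f : ℕ → List ℕ → ℤ) : List ℕ → List ℕ → ℤ
  | _, [] => 0
  | pre, x :: xs => f x (List.reverseAux pre xs) - pickSum f (x :: pre) xs

def go : List ℕ → ℕ → List ℕ → ℤ
  | [], _, _ => 1
  | T :: es, v, l => pickSum (fun a l' => pickSum (fun b l'' =>
      sel ((T >>> (162 * v + 18 * a + 2 * b)) % 4) (go es b l'')) [] l') [] l

def P : List ℕ → ℕ → List ℕ → ℤ
  | T :: es, v, a :: b :: t => sel ((T >>> (162 * v + 18 * a + 2 * b)) % 4) 1 * P es b t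
  | _, _, _ => 1

def alt (m : ℕ) (F : List ℕ → ℤ) (x : Fin m → ℕ) : ℤ :=
  ∑ σ : Perm (Fin m), (Perm.sign σ : ℤ) * F (List.ofFn (x ∘ σ))

lemma sel_mul (n : ℕ) (x : ℤ) : sel n x = sel n 1 * x := by
  rcases n with _ | _ | n <;> simp [sel]

lemma pick_eq (f : ℕ → List ℕ → ℤ) : ∀ (m : ℕ) (x : Fin (m + 1) → ℕ) (pre : List ℕ),
    pickSum f pre (List.ofFn x) = ∑ i : Fin (m + 1),
      (-1) ^ (i : ℕ) * f (x i) (pre.reverse ++ List.ofFn (x ∘ i.succAbove)) := by
  intro m
  induction m with
  | zero => intro x pre; simp [pickSum]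
  | succ m ih =>
    intro x pre
    rw [List.ofFn_succ, pickSum, ih, Fin.sum_univ_succ (n := m + 1), sub_eq_add_neg,
      ← sum_neg_distrib]
    congr 1
    · simp [Function.comp_def]
    · refine sum_congr rfl fun i _ => ?_
      rw [List.ofFn_succ (f := x ∘ i.succ.succAbove)]
      simp [pow_succ, Function.comp_def]

lemma alt_succ (m : ℕ) (F : List ℕ → ℤ) (x : Fin (m + 1) → ℕ) :
    alt (m + 1) F x = ∑ i : Fin (m + 1),
      (-1) ^ (i : ℕ) * alt m (fun t => F (x i :: t)) (x ∘ i.succAbove) := by
  unfold alt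
  rw [← Equiv.sum_comp Perm.decomposeFin.symm, Fintype.sum_prod_type]
  refine sum_congr rfl fun p _ => ?_
  refine Fin.cases ?_ (fun i => ?_) p
  · rw [mul_sum]
    refine sum_congr rfl fun e _ => ?_
    rw [List.ofFn_succ]
    simp [Function.comp_def]
  · rw [mul_sum, ← Equiv.sum_comp (Equiv.mulLeft i.cycleRange)
      (fun e : Perm (Fin m) => (-1) ^ ((i.succ : Fin (m + 1)) : ℕ) * ((Perm.sign e : ℤ) *
        F (x i.succ :: List.ofFn ((x ∘ i.succ.succAbove) ∘ e))))]
    refine sum_congr rfl fun e _ => ?_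
    rw [List.ofFn_succ]
    simp only [Function.comp_def, Perm.decomposeFin_symm_apply_zero,
      Perm.decomposeFin_symm_apply_succ, Perm.decomposeFin.symm_sign, Fin.succ_ne_zero, if_false,
      Equiv.coe_mulLeft, Perm.coe_mul, Fin.succAbove_cycleRange, Perm.sign_mul,
      Fin.sign_cycleRange, Fin.val_succ, pow_succ]
    push_cast
    have : ((-1 : ℤ) ^ (i : ℕ)) * (-1) ^ (i : ℕ) = 1 := by rw [← mul_pow]; simp
    linear_combination (((Perm.sign e : ℤˣ) : ℤ) *
      F (x i.succ :: List.ofFn fun j => x (swap 0 i.succ (e j).succ))) * this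

lemma alt_mul (m : ℕ) (c : ℤ) (F : List ℕ → ℤ) (x : Fin m → ℕ) :
    alt m (fun t => c * F t) x = c * alt m F x := by
  simp only [alt, mul_sum, mul_left_comm]

lemma alt_go : ∀ (es : List ℕ) (v : ℕ) (x : Fin (2 * es.length) → ℕ),
    alt (2 * es.length) (P es v) x = go es v (List.ofFn x) := by
  intro es
  induction es with
  | nil => intro v x; simp [alt, P, go]
  | cons T es ih =>
    intro v x
    change alt (2 * es.length + 1 + 1) _ x = go (T :: es) v (List.ofFn (n := 2 * es.length + 1 + 1) x)
    rw [alt_succ, go, pick_eq]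
    refine sum_congr rfl fun i _ => ?_
    rw [alt_succ, List.reverse_nil, List.nil_append, pick_eq]
    congr 1
    refine sum_congr rfl fun j _ => ?_
    congr 1
    rw [sel_mul, List.reverse_nil, List.nil_append, ← ih, ← alt_mul]
    rfl

lemma alt_top (es : List ℕ) (x : Fin (2 * es.length + 1) → ℕ) :
    alt (2 * es.length + 1) (fun l => P es (l.headD 0) l.tail) x
      = pickSum (go es) [] (List.ofFn x) := by
  rw [alt_succ, pick_eq]
  refine sum_congr rfl fun i _ => ?_
  rw [List.reverse_nil, List.nil_append, ← alt_go]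
  rfl

lemma a0 : go [T0, T1, T2, T3] 0 [1, 2, 3, 4, 5, 6, 7, 8] = 1440 := by decide +kernel
lemma a1 : go [T0, T1, T2, T3] 1 [0, 2, 3, 4, 5, 6, 7, 8] = -1440 := by decide +kernel
lemma a2 : go [T0, T1, T2, T3] 2 [0, 1, 3, 4, 5, 6, 7, 8] = 1440 := by decide +kernel
lemma a3 : go [T0, T1, T2, T3] 3 [0, 1, 2, 4, 5, 6, 7, 8] = -1440 := by decide +kernel
lemma a4 : go [T0, T1, T2, T3] 4 [0, 1, 2, 3, 5, 6, 7, 8] = 1440 := by decide +kernel
lemma a5 : go [T0, T1, T2, T3] 5 [0, 1, 2, 3, 4, 6, 7, 8] = -1440 := by decide +kernel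
lemma a6 : go [T0, T1, T2, T3] 6 [0, 1, 2, 3, 4, 5, 7, 8] = 1440 := by decide +kernel
lemma a7 : go [T0, T1, T2, T3] 7 [0, 1, 2, 3, 4, 5, 6, 8] = -1440 := by decide +kernel
lemma a8 : go [T0, T1, T2, T3] 8 [0, 1, 2, 3, 4, 5, 6, 7] = 1440 := by decide +kernel
lemma a_tot : pickSum (go [T0, T1, T2, T3]) [] [0, 1, 2, 3, 4, 5, 6, 7, 8] = 12960 := by
  simp only [pickSum, List.reverseAux, a0, a1, a2, a3, a4, a5, a6, a7, a8]
  norm_num

lemma b0 : go [T0, T1, T4, T3] 0 [1, 2, 3, 4, 5, 6, 7, 8] = 1664 := by decide +kernel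
lemma b1 : go [T0, T1, T4, T3] 1 [0, 2, 3, 4, 5, 6, 7, 8] = -2432 := by decide +kernel
lemma b2 : go [T0, T1, T4, T3] 2 [0, 1, 3, 4, 5, 6, 7, 8] = 2048 := by decide +kernel
lemma b3 : go [T0, T1, T4, T3] 3 [0, 1, 2, 4, 5, 6, 7, 8] = -1472 := by decide +kernel
lemma b4 : go [T0, T1, T4, T3] 4 [0, 1, 2, 3, 5, 6, 7, 8] = 320 := by decide +kernel
lemma b5 : go [T0, T1, T4, T3] 5 [0, 1, 2, 3, 4, 6, 7, 8] = -1472 := by decide +kernel
lemma b6 : go [T0, T1, T4, T3] 6 [0, 1, 2, 3, 4, 5, 7, 8] = 2048 := by decide +kernel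
lemma b7 : go [T0, T1, T4, T3] 7 [0, 1, 2, 3, 4, 5, 6, 8] = -2432 := by decide +kernel
lemma b8 : go [T0, T1, T4, T3] 8 [0, 1, 2, 3, 4, 5, 6, 7] = 1664 := by decide +kernel
lemma b_tot : pickSum (go [T0, T1, T4, T3]) [] [0, 1, 2, 3, 4, 5, 6, 7, 8] = 15552 := by
  simp only [pickSum, List.reverseAux, b0, b1, b2, b3, b4, b5, b6, b7, b8]
  norm_num

noncomputable def z (k : ℕ) : ℂ := Complex.exp (((2 * Real.pi * k / 9 : ℝ) : ℂ) * Complex.I)

def sZ (a b : ℕ) : ℤ := if a < b then 1 else if a = b then 0 else -1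

lemma sign_sin (a b : ℕ) (ha : a < 9) (hb : b < 9) :
    ((SignType.sign (Real.sin (Real.pi * ((b : ℝ) - a) / 9)) : SignType) : ℝ) = sZ a b := by
  have hp := Real.pi_pos
  have ha' : (a : ℝ) < 9 := by exact_mod_cast ha
  have hb' : (b : ℝ) < 9 := by exact_mod_cast hb
  have ha0 : (0 : ℝ) ≤ a := Nat.cast_nonneg a
  have hb0 : (0 : ℝ) ≤ b := Nat.cast_nonneg b
  unfold sZ
  rcases lt_trichotomy a b with h | h | h
  · have h' : (a : ℝ) < b := by exact_mod_cast h
    rw [sign_pos (Real.sin_pos_of_pos_of_lt_pi (by nlinarith) (by nlinarith))]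
    simp [h]
  · simp [h]
  · have h' : (b : ℝ) < a := by exact_mod_cast h
    rw [sign_neg (Real.sin_neg_of_neg_of_neg_pi_lt (by nlinarith) (by nlinarith))]
    simp [h.ne', not_lt.2 h.le]

lemma ori_z (a b c : ℕ) (ha : a < 9) (hb : b < 9) (hc : c < 9) :
    ori (z a) (z b) (z c) = ((sZ a b * sZ b c * sZ a c : ℤ) : ℝ) := by
  have key : ∀ x y w : ℝ, (Real.cos (2 * y) - Real.cos (2 * x)) * (Real.sin (2 * w) - Real.sin (2 * x))
      - (Real.sin (2 * y) - Real.sin (2 * x)) * (Real.cos (2 * w) - Real.cos (2 * x))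
      = 4 * (Real.sin (y - x) * Real.sin (w - y) * Real.sin (w - x)) := by
    intro x y w
    simp only [Real.sin_sub, Real.sin_two_mul, Real.cos_two_mul]
    have hx := Real.sin_sq_add_cos_sq x
    have hy := Real.sin_sq_add_cos_sq y
    have hw := Real.sin_sq_add_cos_sq w
    grind
  have e : ((starRingEnd ℂ) (z b - z a) * (z c - z a)).im =
      4 * (Real.sin (Real.pi * ((b : ℝ) - a) / 9) * Real.sin (Real.pi * ((c : ℝ) - b) / 9) *
        Real.sin (Real.pi * ((c : ℝ) - a) / 9)) := by
    have := key (Real.pi * a / 9) (Real.pi * b / 9) (Real.pi * c / 9)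
    simp only [z, Complex.mul_im, Complex.conj_re, Complex.conj_im, Complex.sub_re, Complex.sub_im,
      Complex.exp_ofReal_mul_I_re, Complex.exp_ofReal_mul_I_im]
    have r : ∀ k : ℕ, 2 * Real.pi * k / 9 = 2 * (Real.pi * k / 9) := fun k => by ring
    have r2 : ∀ k l : ℕ, Real.pi * ((k : ℝ) - l) / 9 = Real.pi * k / 9 - Real.pi * l / 9 :=
      fun k l => by ring
    simp only [r, r2]
    linarith
  rw [ori, e, sign_mul, sign_mul, sign_mul, sign_pos (by norm_num : (0 : ℝ) < 4), one_mul]
  push_cast
  rw [sign_sin a b ha hb, sign_sin b c hb hc, sign_sin a c ha hc]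

lemma theta_eq (e : Fin 4 → Fin 9 → ℕ) (he : ∀ i j, e i j < 9) (A B C D : ℕ)
    (h : ∀ (i : Fin 4) (v a b : Fin 9), sZ (e i v) (e i a) * sZ (e i a) (e i b) * sZ (e i v) (e i b)
      = sel ((![A, B, C, D] i >>> (162 * (v : ℕ) + 18 * (a : ℕ) + 2 * (b : ℕ))) % 4) 1) :
    Theta 4 (fun j i => z (e i j)) = Real.pi ^ 4 / (9 : ℕ).factorial *
      (pickSum (go [A, B, C, D]) [] [0, 1, 2, 3, 4, 5, 6, 7, 8] : ℤ) := by
  have := alt_top [A, B, C, D] (fun j : Fin 9 => (j : ℕ))
  have e2 : List.ofFn (n := 2 * [A, B, C, D].length + 1) (fun j : Fin 9 => (j : ℕ))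
      = [0, 1, 2, 3, 4, 5, 6, 7, 8] := rfl
  rw [e2] at this
  rw [← this, Theta, alt]
  congr 1
  push_cast
  refine sum_congr rfl fun σ _ => ?_
  congr 1
  simp only [ori_z _ _ _ (he _ _) (he _ _) (he _ _), h, Fin.prod_univ_four]
  have e3 : List.ofFn ((fun j : Fin 9 => (j : ℕ)) ∘ σ) = [(σ 0 : ℕ), (σ 1 : ℕ), (σ 2 : ℕ), (σ 3 : ℕ),
      (σ 4 : ℕ), (σ 5 : ℕ), (σ 6 : ℕ), (σ 7 : ℕ), (σ 8 : ℕ)] := by
    simp [List.ofFn_succ]
  erw [e3]
  simp only [List.headD_cons, List.tail_cons, P, mul_one]
  push_cast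
  simp only [mul_assoc]
  rfl

theorem result : ∃ θ : Fin (2 * 4 + 1) → Fin 4 → ℂ, (∀ j i, ‖θ j i‖ = 1) ∧
    |Theta 4 (thetaStar 4)| < |Theta 4 θ| := by
  have h1 := theta_eq (fun i j => ((i + 1) * j) % 9) (fun _ _ => Nat.mod_lt _ (by norm_num))
    T0 T1 T2 T3 (by decide +kernel)
  have h2 := theta_eq (fun i j => if i = 2 then 3 * (j % 3) + j / 3 else ((i + 1) * j) % 9)
    (by decide) T0 T1 T4 T3 (by decide +kernel)
  have e : thetaStar 4 = fun (j : Fin 9) (i : Fin 4) => z (((i + 1) * j) % 9) := by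
    funext j i
    have hz : ∀ k : ℕ, z k = Complex.exp (2 * Real.pi * Complex.I / (2 * (4 : ℕ) + 1)) ^ k := by
      intro k
      rw [z, ← Complex.exp_nat_mul]
      congr 1
      push_cast
      ring
    have h9 : Complex.exp (2 * Real.pi * Complex.I / (2 * (4 : ℕ) + 1)) ^ 9 = 1 := by
      rw [← Complex.exp_nat_mul]
      refine Eq.trans ?_ Complex.exp_two_pi_mul_I
      congr 1
      push_cast
      ring
    rw [hz, thetaStar, ← pow_eq_pow_mod _ h9]
  refine ⟨fun (j : Fin 9) (i : Fin 4) =>
      z (if i = 2 then 3 * (j % 3) + j / 3 else ((i + 1) * j) % 9), fun j i => ?_, ?_⟩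
  · exact Complex.norm_exp_ofReal_mul_I _
  · rw [e, h1, h2, a_tot, b_tot, abs_of_pos (by positivity), abs_of_pos (by positivity)]
    have : 0 < Real.pi ^ 4 / (9 : ℕ).factorial := by positivity
    push_cast
    linarith

end Pool.Agent.Results.MP_89dd65_gt.Nine
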